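import Pool.Agent.P.MP_8598be_al.Lie

/-! The conjecture of Lee and Voll for nilpotency class two and any number of generators. -/

open Pool.Agent.P.MP_8598be_al in
theorem Pool.Agent.Results.MP_8598be_al.ClassTwo.result (d : ℕ) :
    ∃ W : RatXY, Uniform 2 d W ∧ (∀ W', Uniform 2 d W' → W' = W) ∧
      ∃ v : ℚ, 0 < v ∧ BothValues (rk 2 d) W v :=
  class_two d
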