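import Pool.Agent.P.MP_8598be_al.E.Main
import Pool.Agent.P.MP_8598be_al.E.Flags

/-! For every uniform pair both values of the conjecture of Lee and Voll exist and agree; the common
value is determined by the number of complete flags of graded ideals over finite prime fields. -/

open Pool.Agent.P.MP_8598be_al in
theorem Pool.Agent.Results.MP_8598be_al.Equal.result (c d : ℕ) (W : RatXY) (hW : Uniform c d W) :
    ∃ e : ℤ, BothValues (rk c d) W (e / (rk c d).factorial) ∧
      ∃ (S : Finset ℕ) (L : ℕ), ∀ (p l : ℕ) [Fact p.Prime], p ∉ S → l.Prime → l ∣ p - 1 → L ≤ l →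
        e ≡ idealFlags (ZMod p) c d [ZMOD l] := by
  obtain ⟨τ, hτ⟩ := E.exists_basis c d
  obtain ⟨A, hA⟩ := E.exists_model hτ
  obtain ⟨e, S, L, h1, h2⟩ := E.main hτ hA hW
  exact ⟨e, h1, S, L, fun p l _ h3 h4 h5 h6 => by
    rw [E.idealFlags_eq hτ hA]
    exact h2 p l h3 h4 h5 h6⟩
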