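import Pool.Agent.P.MP_8598be_al.Lie

/-! Uniformity and the conjecture of Lee and Voll for nilpotency class five on two generators. -/

open Pool.Agent.P.MP_8598be_al in
theorem Pool.Agent.Results.MP_8598be_al.FiveTwo.result :
    ∃ W : RatXY, Uniform 5 2 W ∧ (∀ W', Uniform 5 2 W' → W' = W) ∧
      ∃ v : ℚ, 0 < v ∧ BothValues (rk 5 2) W v :=
  five_two
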