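import Pool.Agent.P.MP_8598be_al.Z.Most

/-! The conjecture of Lee and Voll for most pairs. -/

open Pool.Agent.P.MP_8598be_al in
theorem Pool.Agent.Results.MP_8598be_al.Most.result (c d : ℕ) (hd : 2 ≤ d)
    (h : c ≤ 4 ∨ (d = 2 ∧ c ≤ 7) ∨ (c = 5 ∧ d = 3) ∨
      ∃ l : ℕ, l.Prime ∧ 7 ≤ l ∧ (l ∣ d - 1 ∨ (c ≤ 7 ∧ l ∣ d - 2)))
    (W : RatXY) (hW : Uniform c d W) : ∃ v : ℚ, 0 < v ∧ BothValues (rk c d) W v :=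
  Z.most hd h hW
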